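import Pool.Agent.MP_ea150c_mp.H20.SpecM

/-! The number of solutions as a character sum. -/

namespace Pool.Agent.MP_ea150c_mp.H94

open Matrix Pool.Agent.MP_ea150c_mp.H20

section

variable {F E : Type} [Field F] [Fintype F] [DecidableEq F] [Fintype E] [DecidableEq E]

open Classical in
theorem sum_sub (X : Submodule F (E → F)) [Fintype X] (f : (E → F) → ℂ) :
    ∑ y : X, f y = ∑ y : E → F, if y ∈ X then f y else 0 := by
  rw [← Finset.sum_filter]
  exact (Finset.sum_subtype _ (fun y => by simp) f).symm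

omit [Fintype F] [DecidableEq F] in
theorem psi_sum (ψ : AddChar F ℂ) (g : E → F) : ψ (∑ e, g e) = ∏ e, ψ (g e) := by
  induction (Finset.univ : Finset E) using Finset.induction_on with
  | empty => simp
  | insert a s ha ih => rw [Finset.sum_insert ha, Finset.prod_insert ha, ψ.map_add_eq_mul, ih]

theorem sum_line {ψ : AddChar F ℂ} (hψ : ψ ≠ 1) (b : F) :
    ∑ a : F, ψ (a * b) = if b = 0 then (Fintype.card F : ℂ) else 0 := by
  have := AddChar.sum_mulShift b (AddChar.IsPrimitive.of_ne_one hψ)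
  rw [this]
  split_ifs <;> simp

open Classical in
theorem sum_char {ψ : AddChar F ℂ} (hψ : ψ ≠ 1) {U Z : Submodule F (E → F)} [Fintype Z]
    (h : Perp U Z) (w : E → F) :
    ∑ y : Z, ψ (w ⬝ᵥ (y : E → F)) = if w ∈ U then (Nat.card Z : ℂ) else 0 := by
  split_ifs with hw
  · rw [Finset.sum_congr rfl fun y _ => by rw [(h w).1 hw y y.2, ψ.map_zero_eq_one]]
    simp
  · rw [h w] at hw
    push Not at hw
    obtain ⟨y₀, hy₀, hne⟩ := hw
    obtain ⟨c, hc⟩ : ∃ c, ψ c ≠ 1 := by
      by_contra hc
      push Not at hc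
      exact hψ (by ext c; simp [hc c])
    let z : Z := (c / (w ⬝ᵥ y₀)) • ⟨y₀, hy₀⟩
    have hz : w ⬝ᵥ (z : E → F) = c := by
      simp only [z, Submodule.coe_smul, dotProduct_smul, smul_eq_mul]
      exact div_mul_cancel₀ c hne
    have h1 : ∑ y : Z, ψ (w ⬝ᵥ (y : E → F)) = ψ c * ∑ y : Z, ψ (w ⬝ᵥ (y : E → F)) := by
      rw [Finset.mul_sum, ← Equiv.sum_comp (Equiv.addLeft z)]
      refine Finset.sum_congr rfl fun y _ => ?_
      rw [Equiv.coe_addLeft, Submodule.coe_add, dotProduct_add, hz, ψ.map_add_eq_mul]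
    have h2 : (ψ c - 1) * ∑ y : Z, ψ (w ⬝ᵥ (y : E → F)) = 0 := by
      rw [sub_mul, one_mul, ← h1, sub_self]
    exact (mul_eq_zero.1 h2).resolve_left (sub_ne_zero.2 hc)

omit [Fintype F] [DecidableEq F] [Fintype E] [DecidableEq E] in
theorem mem_van (X : Submodule F (E → F)) (D : Finset E) (y : E → F) :
    y ∈ van X D ↔ y ∈ X ∧ ∀ e ∈ D, y e = 0 := by
  simp [van, Submodule.mem_pi]

open Classical in
theorem nsol_eq (U Z : Submodule F (E → F)) (x : E → Option F) :
    (nsol U Z x : ℂ) = ∑ y : E → F, ∑ u : E → F,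
      if y ∈ Z ∧ u ∈ U ∧ ∀ e, al (x e) * y e = te (x e) * u e then 1 else 0 := by
  rw [nsol, Nat.card_eq_fintype_card, Fintype.card_subtype, Finset.card_filter, Nat.cast_sum,
    Fintype.sum_prod_type_right]
  have h1 : ∀ y : Z, (∑ u : U, ((if ∀ e, al (x e) * (y : E → F) e = te (x e) * (u : E → F) e
      then 1 else 0 : ℕ) : ℂ)) = ∑ u : E → F,
        if u ∈ U ∧ ∀ e, al (x e) * (y : E → F) e = te (x e) * u e then 1 else 0 := fun y => by
    rw [sum_sub U fun u => ((if ∀ e, al (x e) * (y : E → F) e = te (x e) * u e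
      then 1 else 0 : ℕ) : ℂ)]
    refine Finset.sum_congr rfl fun u _ => ?_
    by_cases h1 : u ∈ U <;> simp [h1]
  rw [Finset.sum_congr rfl fun y _ => h1 y, sum_sub Z fun y => ∑ u : E → F,
    if u ∈ U ∧ ∀ e, al (x e) * y e = te (x e) * u e then 1 else 0]
  refine Finset.sum_congr rfl fun y _ => ?_
  by_cases h1 : y ∈ Z <;> simp [h1]

theorem inner_sum {ψ : AddChar F ℂ} (hψ : ψ ≠ 1) (D : Finset E) (α y z : E → F) :
    (∑ u : E → F, if ∀ e, al (if e ∈ D then none else some (α e)) * y e =
        te (if e ∈ D then none else some (α e)) * u e then ψ (u ⬝ᵥ z) else 0) =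
      if (∀ e ∈ D, y e = 0) ∧ ∀ e ∈ D, z e = 0 then
        (Fintype.card F : ℂ) ^ D.card * ψ (∑ e, α e * (y e * z e)) else 0 := by
  have h1 : ∀ u : E → F, (if ∀ e, al (if e ∈ D then none else some (α e)) * y e =
        te (if e ∈ D then none else some (α e)) * u e then ψ (u ⬝ᵥ z) else 0) =
      ∏ e, if al (if e ∈ D then none else some (α e)) * y e =
        te (if e ∈ D then none else some (α e)) * u e then ψ (u e * z e) else 0 := fun u => by
    rw [Fintype.prod_ite_zero, dotProduct, psi_sum]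
  rw [Finset.sum_congr rfl fun u _ => h1 u, ← Fintype.piFinset_univ,
    ← Finset.prod_univ_sum (fun _ => Finset.univ) fun e a =>
      if al (if e ∈ D then none else some (α e)) * y e =
        te (if e ∈ D then none else some (α e)) * a then ψ (a * z e) else 0]
  have h2 : ∀ e, (∑ a : F, if al (if e ∈ D then none else some (α e)) * y e =
        te (if e ∈ D then none else some (α e)) * a then ψ (a * z e) else 0) =
      if e ∈ D then (if y e = 0 ∧ z e = 0 then (Fintype.card F : ℂ) else 0)
      else ψ (α e * (y e * z e)) := fun e => by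
    by_cases he : e ∈ D
    · simp only [he, if_true, al, te, one_mul, zero_mul]
      by_cases hy : y e = 0
      · simp only [hy, if_true, true_and]
        exact sum_line hψ _
      · simp [hy]
    · simp only [he, if_false, al, te, one_mul]
      rw [Finset.sum_ite_eq, if_pos (Finset.mem_univ _), mul_assoc]
  rw [Finset.prod_congr rfl fun e _ => h2 e]
  split_ifs with h
  · rw [psi_sum, ← Finset.prod_const, ← Finset.prod_ite_mem_eq D (fun _ => (Fintype.card F : ℂ)),
      ← Finset.prod_mul_distrib]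
    refine Finset.prod_congr rfl fun e _ => ?_
    by_cases he : e ∈ D
    · simp [he, h.1 e he, h.2 e he]
    · simp [he]
  · have : ∃ e ∈ D, ¬ (y e = 0 ∧ z e = 0) := by
      by_contra hc
      push Not at hc
      exact h ⟨fun e he => (hc e he).1, fun e he => (hc e he).2⟩
    obtain ⟨e, he, hn⟩ := this
    exact Finset.prod_eq_zero (Finset.mem_univ e) (by rw [if_pos he, if_neg hn])

end

theorem sF1 : SF1 := by
  intro F E _ _ _ _ _ U Z ψ D α hψ h
  classical
  rw [finsum_eq_sum_of_fintype, Fintype.sum_prod_type, nsol_eq, Finset.mul_sum, Finset.mul_sum,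
    sum_sub (van Z D) fun y => (Fintype.card F : ℂ) ^ D.card *
      ∑ z : van Z D, ψ (∑ e, α e * (y e * (z : E → F) e))]
  refine Finset.sum_congr rfl fun y _ => ?_
  have h1 : ∀ u : E → F, (Nat.card Z : ℂ) * (if y ∈ Z ∧ u ∈ U ∧
      ∀ e, al (if e ∈ D then none else some (α e)) * y e =
        te (if e ∈ D then none else some (α e)) * u e then 1 else 0) =
      if y ∈ Z then ∑ z : Z, if ∀ e, al (if e ∈ D then none else some (α e)) * y e =
        te (if e ∈ D then none else some (α e)) * u e then ψ (u ⬝ᵥ (z : E → F)) else 0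
      else 0 := fun u => by
    by_cases hy : y ∈ Z
    · by_cases hc : ∀ e, al (if e ∈ D then none else some (α e)) * y e =
          te (if e ∈ D then none else some (α e)) * u e
      · simp only [hy, hc, true_and, implies_true, and_true, if_true]
        rw [sum_char hψ h u]
        split_ifs <;> simp
      · simp [hc]
    · simp [hy]
  rw [Finset.mul_sum, Finset.sum_congr rfl fun u _ => h1 u]
  by_cases hy : y ∈ Z
  · simp only [hy, if_true]
    rw [Finset.sum_comm, Finset.sum_congr rfl fun (z : Z) _ => inner_sum hψ D α y z,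
      sum_sub Z fun z => if (∀ e ∈ D, y e = 0) ∧ ∀ e ∈ D, z e = 0 then
        (Fintype.card F : ℂ) ^ D.card * ψ (∑ e, α e * (y e * z e)) else 0,
      sum_sub (van Z D) fun z => ψ (∑ e, α e * (y e * z e))]
    by_cases hD : ∀ e ∈ D, y e = 0
    · rw [if_pos ((mem_van Z D y).2 ⟨hy, hD⟩), Finset.mul_sum]
      refine Finset.sum_congr rfl fun z _ => ?_
      rw [mem_van]
      by_cases h1 : z ∈ Z
      · by_cases h2 : ∀ e ∈ D, z e = 0
        · rw [if_pos h1, if_pos ⟨hD, h2⟩, if_pos ⟨h1, h2⟩]
        · rw [if_pos h1, if_neg fun h => h2 h.2, if_neg fun h => h2 h.2, mul_zero]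
      · rw [if_neg h1, if_neg fun h => h1 h.1, mul_zero]
    · rw [if_neg fun h => hD ((mem_van Z D y).1 h).2]
      refine Finset.sum_eq_zero fun z _ => ?_
      rw [if_neg fun h : (∀ e ∈ D, y e = 0) ∧ _ => hD h.1, ite_self]
  · rw [if_neg fun h => hy ((mem_van Z D y).1 h).1]
    simp [hy]

end Pool.Agent.MP_ea150c_mp.H94
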