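import Pool.Agent.MP_ea150c_mp.H94.GMb

/-! Row GM: triangular automorphisms are near. -/

namespace Pool.Agent.MP_ea150c_mp.H94

open Pool.Agent.MP_ea150c_mp.H49

noncomputable section

variable {σ I Γ : Type} [Fintype σ] [DecidableEq σ] [AddCommGroup Γ]
  (tor : σ → Bool) (cv : I → σ) (wt : σ → Γ) (p : ℕ) [Fact p.Prime]
  {ι : Type} [Fintype ι] [DecidableEq ι]

theorem mem_BS (om : ι → Γ) (J : Finset I) (w : Γ) (b : PS ι (Tor ℤ_[p] tor)) :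
    b ∈ BS tor cv wt p om J w ↔
      ∀ l, b l ∈ Tp tor cv wt ℤ_[p] J (w + ∑ i, (l i + 1) • om i - ∑ x, wt x) := by
  simp [BS, Submodule.mem_pi]

theorem mem_sm {O E : Type} [CommRing O] [AddCommGroup E] [Module O E] (c : O) (M : Submodule O E)
    (z : E) : z ∈ sm c M ↔ ∃ y ∈ M, c • y = z := by
  simp [sm, Submodule.mem_map]

theorem sm_BS (om : ι → Γ) (J : Finset I) (w : Γ) (c : ℤ_[p]) (b : PS ι (Tor ℤ_[p] tor)) :
    b ∈ sm c (BS tor cv wt p om J w) ↔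
      ∀ l, b l ∈ sm c (Tp tor cv wt ℤ_[p] J (w + ∑ i, (l i + 1) • om i - ∑ x, wt x)) := by
  constructor
  · intro h l
    obtain ⟨y, hy, rfl⟩ := (mem_sm _ _ _).1 h
    exact (mem_sm _ _ _).2 ⟨y l, (mem_BS tor cv wt p om J w y).1 hy l, rfl⟩
  · intro h
    choose y hy1 hy2 using fun l => (mem_sm _ _ _).1 (h l)
    exact (mem_sm _ _ _).2 ⟨y, (mem_BS tor cv wt p om J w y).2 hy1, funext hy2⟩

theorem smul_BS (s1 : S1) (om : ι → Γ) (J : Finset I) (u w : Γ) (a : Tor ℤ_[p] tor)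
    (ha : a ∈ Tp tor cv wt ℤ_[p] J u) (b : PS ι (Tor ℤ_[p] tor)) (hb : b ∈ BS tor cv wt p om J w) :
    a • b ∈ BS tor cv wt p om J (u + w) := by
  obtain ⟨-, -, hmul, -⟩ := (s1 ℤ_[p] σ tor).2.2.2.2.2.2.2.2 I Γ cv wt J
  rw [mem_BS] at hb ⊢
  intro l
  have := hmul _ _ _ _ ha (hb l)
  rwa [show u + (w + ∑ i, (l i + 1) • om i - ∑ x, wt x) =
    u + w + ∑ i, (l i + 1) • om i - ∑ x, wt x by abel] at this

theorem Epow_BS (s1 : S1) (s2 : S2) (hp : 7 ≤ p) (htf : ∀ g : Γ, p • g = 0 → g = 0)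
    (om : ι → Γ) (J : Finset I) (f : ι → Tor ℤ_[p] tor)
    (hf : ∀ i, f i ∈ Tp tor cv wt ℤ_[p] J (om i)) (v : Γ) (r : σ → Tor ℤ_[p] tor)
    (hr : ∀ l, r l ∈ Tp tor cv wt ℤ_[p] J (wt l - v)) (n : ℕ) (w : Γ) (b : PS ι (Tor ℤ_[p] tor))
    (hb : b ∈ BS tor cv wt p om J (w + n • v)) :
    (Eo tor p f r ^ n) b ∈ BS tor cv wt p om J w := by
  obtain ⟨hD, -⟩ := (s2 p hp σ ι tor f).2.2.2.2.2.2 I Γ cv wt om J htf hf
  induction n generalizing w with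
  | zero => simpa using hb
  | succ n ih =>
    rw [pow_succ', Module.End.mul_apply, Eo, LinearMap.sum_apply]
    refine Submodule.sum_mem _ fun l _ => ?_
    have h1 := ih (w + v) (by rwa [succ_nsmul', ← add_assoc] at hb)
    have := hD l _ _ (smul_BS tor cv wt p s1 om J _ _ _ (hr l) _ h1)
    rwa [show wt l - v + (w + v) - wt l = w by abel] at this

/-- Apply `τ` to all coefficients. -/
def cT (τ : Tor ℤ_[p] tor ≃ₐ[ℤ_[p]] Tor ℤ_[p] tor) :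
    PS ι (Tor ℤ_[p] tor) →ₗ[ℤ_[p]] PS ι (Tor ℤ_[p] tor) := cw p τ.toLinearMap

theorem cT_apply (τ : Tor ℤ_[p] tor ≃ₐ[ℤ_[p]] Tor ℤ_[p] tor) (b : PS ι (Tor ℤ_[p] tor))
    (l : ι → ℕ) : cT tor p τ b l = τ (b l) := rfl

theorem DOp_apply {A : Type} [CommRing A] [Algebra ℤ_[p] A] (d : A →ₗ[ℤ_[p]] A) (f : ι → A)
    (b : PS ι A) (l : ι → ℕ) : DOp p d f b l = d (b l) + ∑ i, d (f i) * ysh A i b l := by
  simp [DOp, cw, LinearMap.sum_apply, Finset.sum_apply]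

theorem ysh_apply {A : Type} [CommRing A] (i : ι) (b : PS ι A) (l : ι → ℕ) :
    ysh A i b l = if l i = 0 then 0 else b (l - Pi.single i 1) := rfl

theorem cT_D (τ : Tor ℤ_[p] tor ≃ₐ[ℤ_[p]] Tor ℤ_[p] tor) (f : ι → Tor ℤ_[p] tor) (x : σ)
    (r : σ → Tor ℤ_[p] tor)
    (h1 : ∀ z, τ (pd tor ℤ_[p] x (τ.symm z)) = ∑ l, r l * pd tor ℤ_[p] l z)
    (h2 : ∀ z, τ (pd tor ℤ_[p] x (τ.symm z)) = ∑ l, pd tor ℤ_[p] l (r l * z))
    (c : PS ι (Tor ℤ_[p] tor)) :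
    cT tor p τ (DOp p (pd tor ℤ_[p] x) (fun t => τ.symm (f t)) c) = Eo tor p f r (cT tor p τ c) := by
  funext l
  have e : τ (pd tor ℤ_[p] x (c l)) = ∑ y, pd tor ℤ_[p] y (r y * τ (c l)) := by
    rw [← h2, AlgEquiv.symm_apply_apply]
  rw [cT_apply, DOp_apply, map_add, map_sum, e, Eo, LinearMap.sum_apply, Finset.sum_apply]
  simp only [LinearMap.comp_apply, mu_apply, DOp_apply, Finset.sum_add_distrib, map_mul, h1,
    Finset.sum_mul]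
  congr 1
  rw [Finset.sum_comm]
  refine Finset.sum_congr rfl fun y _ => Finset.sum_congr rfl fun i _ => ?_
  rw [ysh_apply, ysh_apply]
  by_cases h : l i = 0
  · simp [h]
  · simp only [h, if_false, Pi.smul_apply, smul_eq_mul, cT_apply]
    ring

theorem cT_Dpow (τ : Tor ℤ_[p] tor ≃ₐ[ℤ_[p]] Tor ℤ_[p] tor) (f : ι → Tor ℤ_[p] tor) (x : σ)
    (r : σ → Tor ℤ_[p] tor)
    (h1 : ∀ z, τ (pd tor ℤ_[p] x (τ.symm z)) = ∑ l, r l * pd tor ℤ_[p] l z)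
    (h2 : ∀ z, τ (pd tor ℤ_[p] x (τ.symm z)) = ∑ l, pd tor ℤ_[p] l (r l * z)) (n : ℕ)
    (c : PS ι (Tor ℤ_[p] tor)) :
    cT tor p τ ((DOp p (pd tor ℤ_[p] x) (fun t => τ.symm (f t)) ^ n) c) =
      (Eo tor p f r ^ n) (cT tor p τ c) := by
  induction n with
  | zero => rfl
  | succ n ih =>
    rw [pow_succ', pow_succ', Module.End.mul_apply, Module.End.mul_apply, cT_D tor p τ f x r h1 h2,
      ih]

/-- The Dwork operator conjugated by `τ`. -/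
def PT (τ : Tor ℤ_[p] tor ≃ₐ[ℤ_[p]] Tor ℤ_[p] tor) (f : ι → Tor ℤ_[p] tor)
    (b : PS ι (Tor ℤ_[p] tor)) : PS ι (Tor ℤ_[p] tor) :=
  fun l => τ (stdPsi p tor (fun t => τ.symm (f t)) (fun l' => τ.symm (b l')) l)

theorem PT_BS (s1 : S1) (s2 : S2) (hp : 7 ≤ p) (htf : ∀ g : Γ, p • g = 0 → g = 0)
    (J₀ : Finset I) (τ : Tor ℤ_[p] tor ≃ₐ[ℤ_[p]] Tor ℤ_[p] tor) (hτ : IsTri tor cv wt p J₀ τ)
    (om : ι → Γ) (J : Finset I) (hJ : J₀ ⊆ J) (f : ι → Tor ℤ_[p] tor)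
    (hf : ∀ i, f i ∈ Tp tor cv wt ℤ_[p] J (om i)) (w : Γ) (b : PS ι (Tor ℤ_[p] tor))
    (hb : b ∈ BS tor cv wt p om J (p • w)) : PT tor p τ f b ∈ BS tor cv wt p om J w := by
  have hT := tri_Tp tor cv wt p s1 J₀ τ hτ J hJ
  have hsymm : ∀ u z, z ∈ Tp tor cv wt ℤ_[p] J u → τ.symm z ∈ Tp tor cv wt ℤ_[p] J u :=
    fun u z hz => (hT u _).2 (by rwa [AlgEquiv.apply_symm_apply])
  obtain ⟨-, hΨ⟩ := (s2 p hp σ ι tor (fun t => τ.symm (f t))).2.2.2.2.2.2 I Γ cv wt om J htf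
    (fun i => hsymm _ _ (hf i))
  rw [mem_BS] at hb ⊢
  intro l
  refine (hT _ _).1 ?_
  obtain ⟨y, hy, e⟩ := (mem_sm _ _ _).1 (hΨ w (fun l' => τ.symm (b l')) l
    ((mem_BS tor cv wt p om J _ _).2 fun l' => hsymm _ _ (hb l')))
  rw [← e]
  exact Submodule.smul_mem _ _ hy

theorem tri_near (s1 : S1) (s1p : S1p) (s2 : S2) (t4 : T4) (hp : 7 ≤ p)
    (htf : ∀ g : Γ, p • g = 0 → g = 0) (J₀ : Finset I)
    (τ : Tor ℤ_[p] tor ≃ₐ[ℤ_[p]] Tor ℤ_[p] tor) (hτ : IsTri tor cv wt p J₀ τ)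
    (om : ι → Γ) (f : ι → Tor ℤ_[p] tor) (hf : ∀ i, f i ∈ Tp tor cv wt ℤ_[p] J₀ (om i)) (S : ℕ) :
    ∃ N ∈ NearStd tor cv wt p J₀ f, ∀ J, J₀ ⊆ J → ∀ w b, b ∈ BS tor cv wt p om J (p • w) →
      PT tor p τ f b - stdPsi p tor f b - N b ∈ sm ((p : ℤ_[p]) ^ S) (BS tor cv wt p om J w) := by
  induction hτ with
  | refl =>
    refine ⟨0, Submodule.zero_mem _, fun J _ w b _ => ?_⟩
    have : PT tor p AlgEquiv.refl f b = stdPsi p tor f b := rfl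
    rw [this]
    simp
  | step τ s i g hτ hi hg hg0 hs h ih =>
    obtain ⟨N, hN, hnear⟩ := ih
    obtain ⟨r, hr, hr1, hr2⟩ := tri_pd tor cv wt p s1 J₀ τ hτ i
    obtain ⟨-, hX, -, -, hphi, -⟩ := (s1 ℤ_[p] σ tor).2.2.2.2.2.2.2.2 I Γ cv wt J₀
    obtain ⟨-, -, -, hφX, -⟩ := s1 ℤ_[p] σ tor
    obtain ⟨-, hdiv, hsat, -⟩ := s1p p σ tor
    obtain ⟨htc, htc0, hT4⟩ := t4 p hp
    obtain ⟨θ, hθ, hθm⟩ : ∃ θ : Tor ℤ_[p] tor, (p : Tor ℤ_[p] tor) * θ =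
        (tX tor ℤ_[p] i + g) ^ p - phi0 tor ℤ_[p] p g - tX tor ℤ_[p] i ^ p ∧
        θ ∈ Tp tor cv wt ℤ_[p] J₀ (p • wt i) := by
      have hm : tX tor ℤ_[p] i + g ∈ Tp tor cv wt ℤ_[p] J₀ (wt i) := Submodule.add_mem _ (hX i) hg
      refine ⟨divp p ((tX tor ℤ_[p] i + g) ^ p - phi0 tor ℤ_[p] p (tX tor ℤ_[p] i + g)), ?_, ?_⟩
      · rw [hdiv, map_add, hφX]; ring
      · refine hsat _ _ ?_
        rw [hdiv]
        exact Submodule.sub_mem _ (Tp_pow tor cv wt s1 J₀ _ _ hm p) (hphi _ p _ hm)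
    have hθ' : τ θ ∈ Tp tor cv wt ℤ_[p] J₀ (p • wt i) :=
      (tri_Tp tor cv wt p s1 J₀ τ hτ J₀ (Finset.Subset.refl _) _ _).1 hθm
    refine ⟨N + ∑ n ∈ Finset.range (2 * S), tc p (n + 1) • ((Eo tor p f r ^ (n + 1)) ∘ₗ
      ((stdPsi p tor f + N) ∘ₗ mu tor p (τ θ ^ (n + 1)))), ?_, fun J hJ w b hb => ?_⟩
    · refine Submodule.add_mem _ hN (Submodule.sum_mem _ fun n _ => ?_)
      obtain ⟨c, hc⟩ := htc (n + 1)
      rw [hc, mul_comm, mul_smul]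
      exact Submodule.smul_mem _ _
        (term_near tor cv wt p J₀ f s1 s2 hp (wt i) r hr (τ θ) hθ' n N hN)
    have hfJ : ∀ t, f t ∈ Tp tor cv wt ℤ_[p] J (om t) := fun t => Tp_mono tor cv wt hJ _ (hf t)
    have hrJ : ∀ l, r l ∈ Tp tor cv wt ℤ_[p] J (wt l - wt i) :=
      fun l => Tp_mono tor cv wt hJ _ (hr l)
    have hbn : ∀ n : ℕ, τ θ ^ n • b ∈ BS tor cv wt p om J (p • (w + n • wt i)) := by
      intro n
      have := smul_BS tor cv wt p s1 om J _ _ _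
        (Tp_pow tor cv wt s1 J _ _ (Tp_mono tor cv wt hJ _ hθ') n) b hb
      rwa [smul_comm n p, ← smul_add, add_comm] at this
    -- the exact Taylor terms
    obtain ⟨t, ht⟩ : ∃ t : ℕ → PS ι (Tor ℤ_[p] tor),
        ∀ n, t n = tc p n • (Eo tor p f r ^ n) (PT tor p τ f (τ θ ^ n • b)) := ⟨_, fun _ => rfl⟩
    have hexp : ∀ l, ∃ N₀, ∀ M ≥ N₀, PT tor p (s.trans τ) f b l = ∑ n ∈ Finset.range M, t n l := by
      intro l
      obtain ⟨N₀, hN₀⟩ := hT4 σ ι tor s i g hi hg0 hs h θ hθ (fun t => τ.symm (f t))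
        (fun l' => τ.symm (b l')) l
      refine ⟨N₀, fun M hM => ?_⟩
      have e : PT tor p (s.trans τ) f b l = τ (s (stdPsi p tor (fun t => s.symm (τ.symm (f t)))
          (fun l' => s.symm (τ.symm (b l'))) l)) := rfl
      rw [e, hN₀ M hM, map_sum]
      refine Finset.sum_congr rfl fun n _ => ?_
      have e2 : (θ ^ n • fun l' => τ.symm (b l')) = fun l' => τ.symm ((τ θ ^ n • b) l') := by
        funext l'
        simp only [Pi.smul_apply, smul_eq_mul, map_mul, map_pow, AlgEquiv.symm_apply_apply]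
      have e3 : cT tor p τ (stdPsi p tor (fun t => τ.symm (f t))
          (fun l' => τ.symm ((τ θ ^ n • b) l'))) = PT tor p τ f (τ θ ^ n • b) := rfl
      rw [ht, map_smul, Pi.smul_apply, ← cT_apply, cT_Dpow tor p τ f i r hr1 hr2, e2, e3]
    have htail : ∀ n, 2 * S ≤ n → t n ∈ sm ((p : ℤ_[p]) ^ S) (BS tor cv wt p om J w) := by
      intro n hn
      obtain ⟨c, hc⟩ := (pow_dvd_pow (p : ℤ_[p]) (show S ≤ nu n by unfold nu; omega)).trans (htc n)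
      rw [ht, hc, mul_smul]
      refine (mem_sm _ _ _).2 ⟨_, Submodule.smul_mem _ _ ?_, rfl⟩
      exact Epow_BS tor cv wt p s1 s2 hp htf om J f hfJ (wt i) r hrJ n w _
        (PT_BS tor cv wt p s1 s2 hp htf J₀ τ hτ om J hJ f hfJ _ _ (hbn n))
    have hA : PT tor p (s.trans τ) f b - ∑ n ∈ Finset.range (2 * S + 1), t n ∈
        sm ((p : ℤ_[p]) ^ S) (BS tor cv wt p om J w) := by
      rw [sm_BS]
      intro l
      obtain ⟨N₀, hN₀⟩ := hexp l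
      rw [Pi.sub_apply, hN₀ (2 * S + 1 + N₀) (by omega), Finset.sum_range_add, Finset.sum_apply,
        add_sub_cancel_left]
      exact Submodule.sum_mem _ fun n _ => (sm_BS tor cv wt p om J w _ _).1 (htail _ (by omega)) l
    have hB : ∀ n, t n - tc p n • (Eo tor p f r ^ n) ((stdPsi p tor f + N) (τ θ ^ n • b)) ∈
        sm ((p : ℤ_[p]) ^ S) (BS tor cv wt p om J w) := by
      intro n
      obtain ⟨y, hy, e⟩ := (mem_sm _ _ _).1 (hnear J hJ _ _ (hbn n))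
      rw [ht, ← smul_sub, ← map_sub, LinearMap.add_apply, ← sub_sub, ← e, map_smul, smul_comm]
      refine (mem_sm _ _ _).2 ⟨_, Submodule.smul_mem _ _ ?_, rfl⟩
      exact Epow_BS tor cv wt p s1 s2 hp htf om J f hfJ (wt i) r hrJ n w _ hy
    have hC := Submodule.add_mem _ hA
      (Submodule.sum_mem _ fun n (_ : n ∈ Finset.range (2 * S + 1)) => hB n)
    rw [Finset.sum_sub_distrib, sub_add_sub_cancel, Finset.sum_range_succ', htc0] at hC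
    simp only [LinearMap.add_apply, LinearMap.sum_apply, LinearMap.smul_apply,
      LinearMap.comp_apply, mu_apply, pow_zero, one_smul, Module.End.one_apply] at hC ⊢
    convert hC using 1
    abel

/-- Row GM. -/
theorem gm (s1 : S1) (s1p : S1p) (s2 : S2) (t4 : T4) : GM := by
  intro p _ hp σ I Γ _ _ _ tor cv wt _ htf J₀ τ hτ
  exact ⟨fun J hJ w z => tri_Tp tor cv wt p s1 J₀ τ hτ J hJ w z,
    fun x => tri_pd tor cv wt p s1 J₀ τ hτ x,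
    fun ι _ _ om f hf S => tri_near tor cv wt p s1 s1p s2 t4 hp htf J₀ τ hτ om f hf S⟩

end

end Pool.Agent.MP_ea150c_mp.H94
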