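import Pool.Agent.MP_ea150c_mp.H49.SpecK

/-! Elementary shifts of toric rings: lattices and derivations. -/

namespace Pool.Agent.MP_ea150c_mp.H94

open Pool.Agent.MP_ea150c_mp.H49

noncomputable section

variable {Λ : Type} [CommRing Λ] {σ : Type} (tor : σ → Bool)

theorem supp_ind {P : (σ → ℤ) → Prop} {M : Type} [AddCommGroup M] [Module Λ M]
    (L : Tor Λ tor →ₗ[Λ] M) (N : Submodule Λ M)
    (h : ∀ u : Mon tor, P u.1 → L (AddMonoidAlgebra.single u 1) ∈ N) (z : Tor Λ tor)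
    (hz : z ∈ supp tor Λ P) : L z ∈ N := by
  rw [← AddMonoidAlgebra.sum_coeff_single z, Finsupp.sum, map_sum]
  refine N.sum_mem fun u hu => ?_
  have e : (AddMonoidAlgebra.single u (z.coeff u) : Tor Λ tor) =
      z.coeff u • AddMonoidAlgebra.single u 1 := by
    rw [AddMonoidAlgebra.smul_single, smul_eq_mul, mul_one]
  rw [e, map_smul]
  exact N.smul_mem _ (h u (hz u (Finsupp.mem_support_iff.1 hu)))

theorem single_mem_supp {P : (σ → ℤ) → Prop} (u : Mon tor) (hu : P u.1) :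
    (AddMonoidAlgebra.single u 1 : Tor Λ tor) ∈ supp tor Λ P := by
  classical
  intro v hv
  rw [AddMonoidAlgebra.coeff_single, Finsupp.single_apply] at hv
  by_cases h : u = v
  · exact h ▸ hu
  · simp [h] at hv

theorem supp_mono {P Q : (σ → ℤ) → Prop} (h : ∀ u, P u → Q u) :
    supp tor Λ P ≤ supp tor Λ Q := fun _ hz u hu => h _ (hz u hu)

theorem linOf_single {B : Type} [AddCommGroup B] [Module Λ B] (g : (σ → ℤ) → B) (u : Mon tor) :
    linOf tor g (AddMonoidAlgebra.single u (1 : Λ)) = g u.1 := by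
  simp [linOf]

variable [Fintype σ] [DecidableEq σ]

theorem tXi_zero (i : σ) (ht : tor i = false) : tXi tor Λ i = 0 := by
  unfold tXi monoZ
  rw [dif_neg]
  intro hm
  have := hm i ht
  simp at this

theorem fix_tXi (s : Tor Λ tor →ₐ[Λ] Tor Λ tor) (l : σ) (h : s (tX tor Λ l) = tX tor Λ l) :
    s (tXi tor Λ l) = tXi tor Λ l := by
  cases ht : tor l
  · rw [tXi_zero tor l ht, map_zero]
  · have e1 : tX tor Λ l * s (tXi tor Λ l) = 1 := by
      rw [← h, ← map_mul, tX_mul_tXi tor l ht, map_one]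
    have e2 := tX_mul_tXi (Λ := Λ) tor l ht
    calc s (tXi tor Λ l) = s (tXi tor Λ l) * (tX tor Λ l * tXi tor Λ l) := by rw [e2, mul_one]
      _ = (tX tor Λ l * s (tXi tor Λ l)) * tXi tor Λ l := by ring
      _ = tXi tor Λ l := by rw [e1, one_mul]

theorem fix_single (s : Tor Λ tor →ₐ[Λ] Tor Λ tor) (i : σ)
    (h : ∀ l, l ≠ i → s (tX tor Λ l) = tX tor Λ l) (u : Mon tor) (hu : u.1 i = 0) :
    s (AddMonoidAlgebra.single u 1) = AddMonoidAlgebra.single u 1 := by
  rw [mono_eq_prod tor u, map_prod]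
  refine Finset.prod_congr rfl fun l _ => ?_
  by_cases hl : l = i
  · subst hl
    simp [hu]
  · rw [map_mul, map_pow, map_pow, h l hl, fix_tXi tor s l (h l hl)]

theorem fix_free (s : Tor Λ tor →ₐ[Λ] Tor Λ tor) (i : σ)
    (h : ∀ l, l ≠ i → s (tX tor Λ l) = tX tor Λ l) (g : Tor Λ tor)
    (hg : g ∈ supp tor Λ (fun u => u i = 0)) : s g = g := by
  have := supp_ind tor (s.toLinearMap - LinearMap.id) ⊥ (P := fun u => u i = 0)
    (fun u hu => by simp [fix_single tor s i h u hu]) g hg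
  simpa [sub_eq_zero] using this

theorem pd_free (i : σ) (g : Tor Λ tor) (hg : g ∈ supp tor Λ (fun u => u i = 0)) :
    pd tor Λ i g = 0 := by
  have := supp_ind tor (pd tor Λ i) ⊥ (P := fun u => u i = 0)
    (fun u hu => by
      have hu' : u.1 i = 0 := hu
      simp [pd, linOf_single, hu']) g hg
  simpa using this

/-- A twisted derivation that kills the variables is zero. -/
theorem der_zero (s : Tor Λ tor →ₐ[Λ] Tor Λ tor) (δ : Tor Λ tor →ₗ[Λ] Tor Λ tor)
    (hm : ∀ a b, δ (a * b) = δ a * s b + s a * δ b) (hx : ∀ l, δ (tX tor Λ l) = 0) (z : Tor Λ tor) :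
    δ z = 0 := by
  have h1 : δ 1 = 0 := by
    have := hm 1 1
    simpa using this
  have hmul : ∀ a b, δ a = 0 → δ b = 0 → δ (a * b) = 0 := fun a b ha hb => by
    rw [hm, ha, hb]; simp
  have hpow : ∀ a n, δ a = 0 → δ (a ^ n) = 0 := fun a n ha => by
    induction n with
    | zero => simpa using h1
    | succ n ih => rw [pow_succ]; exact hmul _ _ ih ha
  have hi : ∀ l, δ (tXi tor Λ l) = 0 := by
    intro l
    cases ht : tor l
    · rw [tXi_zero tor l ht, map_zero]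
    · have e := hm (tX tor Λ l) (tXi tor Λ l)
      rw [tX_mul_tXi tor l ht, h1, hx, zero_mul, zero_add] at e
      have e2 : s (tX tor Λ l) * s (tXi tor Λ l) = 1 := by
        rw [← map_mul, tX_mul_tXi tor l ht, map_one]
      calc δ (tXi tor Λ l) = (s (tX tor Λ l) * s (tXi tor Λ l)) * δ (tXi tor Λ l) := by
            rw [e2, one_mul]
        _ = s (tXi tor Λ l) * (s (tX tor Λ l) * δ (tXi tor Λ l)) := by ring
        _ = 0 := by rw [← e, mul_zero]
  have := supp_ind tor δ ⊥ (P := fun _ => True)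
    (fun u _ => by
      rw [Submodule.mem_bot, mono_eq_prod tor u]
      refine Finset.prod_induction _ (fun a => δ a = 0) hmul h1 fun l _ => ?_
      exact hmul _ _ (hpow _ _ (hx l)) (hpow _ _ (hi l))) z (fun _ _ => trivial)
  simpa using this

section Weights
variable {I Γ : Type} [AddCommGroup Γ] (cv : I → σ) (wt : σ → Γ)

theorem Tp_mono {J J' : Finset I} (h : J ⊆ J') (w : Γ) :
    Tp tor cv wt Λ J w ≤ Tp tor cv wt Λ J' w :=
  supp_mono tor fun _ hu => ⟨fun v hv => hu.1 v (fun hJ => hv (h hJ)), hu.2⟩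

theorem Tp_pow (s1 : S1) (J : Finset I) (w : Γ) (a : Tor Λ tor) (ha : a ∈ Tp tor cv wt Λ J w)
    (n : ℕ) : a ^ n ∈ Tp tor cv wt Λ J (n • w) := by
  obtain ⟨h1, -, hmul, -⟩ := (s1 Λ σ tor).2.2.2.2.2.2.2.2 I Γ cv wt J
  induction n with
  | zero => simpa using h1
  | succ n ih => rw [pow_succ, succ_nsmul]; exact hmul _ _ _ _ ih ha

/-- An elementary shift preserves the lattices. -/
theorem shift_Tp (s1 : S1) (s : Tor Λ tor →ₐ[Λ] Tor Λ tor) (i : σ) (g : Tor Λ tor)
    (hi : tor i = false) (J : Finset I) (hg : g ∈ Tp tor cv wt Λ J (wt i))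
    (hs : s (tX tor Λ i) = tX tor Λ i + g) (h : ∀ l, l ≠ i → s (tX tor Λ l) = tX tor Λ l)
    (w : Γ) (z : Tor Λ tor) (hz : z ∈ Tp tor cv wt Λ J w) : s z ∈ Tp tor cv wt Λ J w := by
  obtain ⟨-, hX, hmul, -⟩ := (s1 Λ σ tor).2.2.2.2.2.2.2.2 I Γ cv wt J
  refine supp_ind tor s.toLinearMap _ (fun u hu => ?_) z hz
  obtain ⟨hu1, hu2⟩ := hu
  have h0 : 0 ≤ u.1 i := u.2 i hi
  obtain ⟨n, hn⟩ := Int.eq_ofNat_of_zero_le h0
  have hmem : Function.update u.1 i 0 ∈ Mon tor := by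
    intro l hl
    by_cases hli : l = i
    · subst hli; simp
    · rw [Function.update_of_ne hli]; exact u.2 l hl
  have e : (AddMonoidAlgebra.single u 1 : Tor Λ tor) =
      tX tor Λ i ^ n * AddMonoidAlgebra.single (⟨_, hmem⟩ : Mon tor) 1 := by
    simp only [tX, monoZ, dif_pos (single_mem tor i), AddMonoidAlgebra.single_pow, one_pow,
      AddMonoidAlgebra.single_mul_single, one_mul]
    congr 1
    ext l
    by_cases hli : l = i
    · subst hli; simp [hn]
    · simp [hli]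
  have hw : w = n • wt i + ∑ x, Function.update u.1 i 0 x • wt x := by
    rw [← hu2, ← Finset.add_sum_erase _ _ (Finset.mem_univ i),
      ← Finset.add_sum_erase _ _ (Finset.mem_univ i), Function.update_self, zero_smul, zero_add,
      hn, natCast_zsmul]
    congr 1
    refine Finset.sum_congr rfl fun l hl => ?_
    rw [Function.update_of_ne (Finset.ne_of_mem_erase hl)]
  rw [AlgHom.toLinearMap_apply, e, map_mul, map_pow, hs,
    fix_single tor s i h ⟨_, hmem⟩ (by simp), hw]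
  refine hmul _ _ _ _ (Tp_pow tor cv wt s1 J _ _ (Submodule.add_mem _ (hX i) hg) n) ?_
  refine single_mem_supp tor _ ⟨fun v hv => ?_, rfl⟩
  by_cases hli : cv v = i
  · rw [hli]; simp
  · show 0 ≤ Function.update u.1 i 0 (cv v)
    rw [Function.update_of_ne hli]; exact hu1 v hv

end Weights

theorem symm_shift (s : Tor Λ tor ≃ₐ[Λ] Tor Λ tor) (i : σ) (g : Tor Λ tor)
    (hg : g ∈ supp tor Λ (fun u => u i = 0))
    (hs : s (tX tor Λ i) = tX tor Λ i + g) (h : ∀ l, l ≠ i → s (tX tor Λ l) = tX tor Λ l) :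
    s.symm (tX tor Λ i) = tX tor Λ i + -g ∧ ∀ l, l ≠ i → s.symm (tX tor Λ l) = tX tor Λ l := by
  have hf : s g = g := fix_free tor s.toAlgHom i h g hg
  refine ⟨?_, fun l hl => ?_⟩
  · rw [AlgEquiv.symm_apply_eq, map_add, map_neg, hs, hf]; ring
  · rw [AlgEquiv.symm_apply_eq, h l hl]

/-- Conjugating a derivative by an elementary shift. -/
theorem shift_pd (s1 : S1) (s : Tor Λ tor →ₐ[Λ] Tor Λ tor) (i : σ) (g : Tor Λ tor)
    (hg : g ∈ supp tor Λ (fun u => u i = 0))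
    (hs : s (tX tor Λ i) = tX tor Λ i + g) (h : ∀ l, l ≠ i → s (tX tor Λ l) = tX tor Λ l)
    (x : σ) (z : Tor Λ tor) :
    s (pd tor Λ x z) = pd tor Λ x (s z) - pd tor Λ x g * pd tor Λ i (s z) := by
  obtain ⟨hL, hX, -⟩ := s1 Λ σ tor
  have := der_zero tor s (s.toLinearMap ∘ₗ pd tor Λ x - (pd tor Λ x ∘ₗ s.toLinearMap -
      (LinearMap.mul Λ _ (pd tor Λ x g)) ∘ₗ pd tor Λ i ∘ₗ s.toLinearMap))
    (fun a b => by
      simp only [LinearMap.sub_apply, LinearMap.comp_apply, AlgHom.toLinearMap_apply,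
        LinearMap.mul_apply', map_mul, hL, map_add]
      ring)
    (fun l => by
      simp only [LinearMap.sub_apply, LinearMap.comp_apply, AlgHom.toLinearMap_apply,
        LinearMap.mul_apply']
      by_cases hl : l = i
      · subst hl
        rw [hs, map_add, map_add, hX, hX, pd_free tor l g hg]
        by_cases hx : x = l <;> simp [hx]
      · rw [h l hl, hX, hX]
        have : ¬ i = l := fun e => hl e.symm
        by_cases hx : x = l <;> simp [hx, this]) z
  simpa [sub_eq_zero] using this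

section Tri
variable {I Γ : Type} [AddCommGroup Γ] (cv : I → σ) (wt : σ → Γ) (p : ℕ) [Fact p.Prime]

theorem shift_iff (s1 : S1) (s : Tor Λ tor ≃ₐ[Λ] Tor Λ tor) (i : σ) (g : Tor Λ tor)
    (hi : tor i = false) (J : Finset I) (hg : g ∈ Tp tor cv wt Λ J (wt i))
    (hg0 : g ∈ supp tor Λ (fun u => u i = 0))
    (hs : s (tX tor Λ i) = tX tor Λ i + g) (h : ∀ l, l ≠ i → s (tX tor Λ l) = tX tor Λ l)
    (w : Γ) (z : Tor Λ tor) : z ∈ Tp tor cv wt Λ J w ↔ s z ∈ Tp tor cv wt Λ J w := by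
  refine ⟨shift_Tp tor cv wt s1 s.toAlgHom i g hi J hg hs h w z, fun hz => ?_⟩
  obtain ⟨h1, h2⟩ := symm_shift tor s i g hg0 hs h
  have := shift_Tp tor cv wt s1 s.symm.toAlgHom i (-g) hi J (Submodule.neg_mem _ hg) h1 h2 w _ hz
  simpa using this

theorem tri_Tp (s1 : S1) (J₀ : Finset I) (τ : Tor ℤ_[p] tor ≃ₐ[ℤ_[p]] Tor ℤ_[p] tor)
    (hτ : IsTri tor cv wt p J₀ τ) (J : Finset I) (hJ : J₀ ⊆ J) (w : Γ) (z : Tor ℤ_[p] tor) :
    z ∈ Tp tor cv wt ℤ_[p] J w ↔ τ z ∈ Tp tor cv wt ℤ_[p] J w := by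
  induction hτ generalizing z with
  | refl => simp
  | step τ s i g _ hi hg hg0 hs h ih =>
    rw [AlgEquiv.trans_apply, ← ih]
    exact shift_iff tor cv wt s1 s i g hi J (Tp_mono tor cv wt hJ _ hg) hg0 hs h w z

theorem tri_pd (s1 : S1) (J₀ : Finset I) (τ : Tor ℤ_[p] tor ≃ₐ[ℤ_[p]] Tor ℤ_[p] tor)
    (hτ : IsTri tor cv wt p J₀ τ) (x : σ) :
    ∃ r : σ → Tor ℤ_[p] tor, (∀ l, r l ∈ Tp tor cv wt ℤ_[p] J₀ (wt l - wt x)) ∧
    (∀ z, τ (pd tor ℤ_[p] x (τ.symm z)) = ∑ l, r l * pd tor ℤ_[p] l z) ∧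
    (∀ z, τ (pd tor ℤ_[p] x (τ.symm z)) = ∑ l, pd tor ℤ_[p] l (r l * z)) := by
  obtain ⟨h1, -, hmul, hpd, -⟩ := (s1 ℤ_[p] σ tor).2.2.2.2.2.2.2.2 I Γ cv wt J₀
  obtain ⟨hL, -, hc, -⟩ := s1 ℤ_[p] σ tor
  induction hτ generalizing x with
  | refl =>
    refine ⟨fun l => if l = x then 1 else 0, fun l => ?_, fun z => ?_, fun z => ?_⟩
    · by_cases hl : l = x
      · simpa [hl] using h1
      · simp [hl]
    · simp
    · rw [Finset.sum_eq_single x]
      · simp
      · intro l _ hl; simp [hl]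
      · simp
  | step τ s i g hτ hi hg hg0 hs h ih =>
    obtain ⟨r, hr, hr1, hr2⟩ := ih x
    obtain ⟨q, hq, hq1, hq2⟩ := ih i
    have key : ∀ z, (s.trans τ) (pd tor ℤ_[p] x ((s.trans τ).symm z)) =
        τ (pd tor ℤ_[p] x (τ.symm z)) - τ (pd tor ℤ_[p] x g) * τ (pd tor ℤ_[p] i (τ.symm z)) := by
      intro z
      have : s (pd tor ℤ_[p] x (s.symm (τ.symm z))) =
          pd tor ℤ_[p] x (s (s.symm (τ.symm z))) -
            pd tor ℤ_[p] x g * pd tor ℤ_[p] i (s (s.symm (τ.symm z))) :=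
        shift_pd tor s1 s.toAlgHom i g hg0 hs h x (s.symm (τ.symm z))
      rw [AlgEquiv.apply_symm_apply] at this
      rw [AlgEquiv.trans_apply, AlgEquiv.symm_trans_apply, this, map_sub, map_mul]
    have hm : τ (pd tor ℤ_[p] x g) ∈ Tp tor cv wt ℤ_[p] J₀ (wt i - wt x) :=
      (tri_Tp tor cv wt p s1 J₀ τ hτ J₀ (Finset.Subset.refl _) _ _).1 (hpd _ _ _ hg)
    refine ⟨fun l => r l - τ (pd tor ℤ_[p] x g) * q l, fun l => ?_, fun z => ?_, fun z => ?_⟩
    · refine Submodule.sub_mem _ (hr l) ?_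
      have := hmul _ _ _ _ hm (hq l)
      rwa [show wt i - wt x + (wt l - wt i) = wt l - wt x by abel] at this
    · rw [key, hr1, hq1, Finset.mul_sum, ← Finset.sum_sub_distrib]
      exact Finset.sum_congr rfl fun l _ => by ring
    · have e : τ (pd tor ℤ_[p] x g) * τ (pd tor ℤ_[p] i (τ.symm z)) =
          τ (pd tor ℤ_[p] i (τ.symm (τ (pd tor ℤ_[p] x g) * z))) := by
        rw [map_mul, AlgEquiv.symm_apply_apply, hL, hc, pd_free tor i g hg0, map_zero, zero_mul,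
          zero_add, map_mul]
      rw [key, e, hr2, hq2, ← Finset.sum_sub_distrib]
      refine Finset.sum_congr rfl fun l _ => ?_
      rw [← map_sub]
      congr 1
      ring

end Tri

end

end Pool.Agent.MP_ea150c_mp.H94
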