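import Pool.Agent.MP_ea150c_mp.H94.GMa

/-! Normal ordering of operators `Q ∘ Ψ ∘ a`. -/

namespace Pool.Agent.MP_ea150c_mp.H94

open Pool.Agent.MP_ea150c_mp.H49

noncomputable section

variable {σ I Γ : Type} [Fintype σ] [DecidableEq σ] [AddCommGroup Γ]
  (tor : σ → Bool) (cv : I → σ) (wt : σ → Γ) (p : ℕ) [Fact p.Prime]
  {ι : Type} [Fintype ι] [DecidableEq ι] (J₀ : Finset I) (f : ι → Tor ℤ_[p] tor)

/-- The composite of twisted derivatives along a list. -/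
def Qw (s : List σ) : PS ι (Tor ℤ_[p] tor) →ₗ[ℤ_[p]] PS ι (Tor ℤ_[p] tor) :=
  s.foldr (fun x Q => DOp p (pd tor ℤ_[p] x) f ∘ₗ Q) LinearMap.id

/-- Multiplication by `a`. -/
abbrev mu (a : Tor ℤ_[p] tor) : PS ι (Tor ℤ_[p] tor) →ₗ[ℤ_[p]] PS ι (Tor ℤ_[p] tor) :=
  mulL ℤ_[p] (PS ι (Tor ℤ_[p] tor)) a

/-- Normally ordered operators of length at most `m` and weight `w`. -/
def V (m : ℕ) (w : Γ) :
    Submodule ℤ_[p] (PS ι (Tor ℤ_[p] tor) →ₗ[ℤ_[p]] PS ι (Tor ℤ_[p] tor)) :=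
  Submodule.span ℤ_[p] {T | ∃ s : List σ, s.length ≤ m ∧
    ∃ a ∈ Tp tor cv wt ℤ_[p] J₀ (p • (w + (s.map wt).sum)),
      T = Qw tor p f s ∘ₗ stdPsi p tor f ∘ₗ mu tor p a}

theorem mu_apply (a : Tor ℤ_[p] tor) (b : PS ι (Tor ℤ_[p] tor)) : mu tor p a b = a • b := rfl

theorem Qw_cons (x : σ) (s : List σ) :
    Qw tor p f (x :: s) = DOp p (pd tor ℤ_[p] x) f ∘ₗ Qw tor p f s := rfl

theorem V_gen (m : ℕ) (w : Γ) (s : List σ) (hs : s.length ≤ m) (a : Tor ℤ_[p] tor)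
    (ha : a ∈ Tp tor cv wt ℤ_[p] J₀ (p • (w + (s.map wt).sum))) :
    Qw tor p f s ∘ₗ stdPsi p tor f ∘ₗ mu tor p a ∈ V tor cv wt p J₀ f m w :=
  Submodule.subset_span ⟨s, hs, a, ha, rfl⟩

/-- A linear map on operators sends `V m w` into a submodule as soon as it does so on
generators. -/
theorem V_ind {M : Type} [AddCommGroup M] [Module ℤ_[p] M] (m : ℕ) (w : Γ)
    (L : (PS ι (Tor ℤ_[p] tor) →ₗ[ℤ_[p]] PS ι (Tor ℤ_[p] tor)) → M) (N : Submodule ℤ_[p] M)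
    (hadd : ∀ T T', L (T + T') = L T + L T') (hsm : ∀ (c : ℤ_[p]) T, L (c • T) = c • L T)
    (h : ∀ s : List σ, s.length ≤ m → ∀ a ∈ Tp tor cv wt ℤ_[p] J₀ (p • (w + (s.map wt).sum)),
      L (Qw tor p f s ∘ₗ stdPsi p tor f ∘ₗ mu tor p a) ∈ N)
    (T : PS ι (Tor ℤ_[p] tor) →ₗ[ℤ_[p]] PS ι (Tor ℤ_[p] tor))
    (hT : T ∈ V tor cv wt p J₀ f m w) : L T ∈ N := by
  induction hT using Submodule.span_induction with
  | mem T hT =>
    obtain ⟨s, hs, a, ha, rfl⟩ := hT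
    exact h s hs a ha
  | zero =>
    have := hsm 0 0
    rw [zero_smul, zero_smul] at this
    rw [this]; exact N.zero_mem
  | add T T' _ _ h1 h2 => rw [hadd]; exact N.add_mem h1 h2
  | smul c T _ h1 => rw [hsm]; exact N.smul_mem c h1

theorem V_mono {m m' : ℕ} (hm : m ≤ m') (w : Γ) :
    V tor cv wt p J₀ f m w ≤ V tor cv wt p J₀ f m' w :=
  Submodule.span_mono fun _ ⟨s, hs, a, ha, e⟩ => ⟨s, hs.trans hm, a, ha, e⟩

theorem V_D (m : ℕ) (w : Γ) (x : σ) (T : PS ι (Tor ℤ_[p] tor) →ₗ[ℤ_[p]] PS ι (Tor ℤ_[p] tor))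
    (hT : T ∈ V tor cv wt p J₀ f m (w + wt x)) :
    DOp p (pd tor ℤ_[p] x) f ∘ₗ T ∈ V tor cv wt p J₀ f (m + 1) w := by
  refine V_ind tor cv wt p J₀ f m _ (fun T => DOp p (pd tor ℤ_[p] x) f ∘ₗ T) _
    (fun T T' => LinearMap.comp_add _ _ _) (fun c T => LinearMap.comp_smul _ _ _)
    (fun s hs a ha => ?_) T hT
  refine V_gen tor cv wt p J₀ f (m + 1) w (x :: s) (by simpa using hs) a ?_
  rwa [List.map_cons, List.sum_cons, ← add_assoc]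

theorem V_right (s1 : S1) (m : ℕ) (w u : Γ) (c : Tor ℤ_[p] tor)
    (hc : c ∈ Tp tor cv wt ℤ_[p] J₀ (p • u))
    (T : PS ι (Tor ℤ_[p] tor) →ₗ[ℤ_[p]] PS ι (Tor ℤ_[p] tor))
    (hT : T ∈ V tor cv wt p J₀ f m w) : T ∘ₗ mu tor p c ∈ V tor cv wt p J₀ f m (w + u) := by
  obtain ⟨-, -, hmul, -⟩ := (s1 ℤ_[p] σ tor).2.2.2.2.2.2.2.2 I Γ cv wt J₀
  refine V_ind tor cv wt p J₀ f m _ (fun T => T ∘ₗ mu tor p c) _
    (fun T T' => LinearMap.add_comp _ _ _) (fun c T => LinearMap.smul_comp _ _ _)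
    (fun s hs a ha => ?_) T hT
  have e : (Qw tor p f s ∘ₗ stdPsi p tor f ∘ₗ mu tor p a) ∘ₗ mu tor p c =
      Qw tor p f s ∘ₗ stdPsi p tor f ∘ₗ mu tor p (a * c) := by
    refine LinearMap.ext fun b => ?_
    simp only [LinearMap.comp_apply, mu_apply, mul_smul]
  rw [e]
  refine V_gen tor cv wt p J₀ f m _ s hs _ ?_
  have := hmul _ _ _ _ ha hc
  rwa [← smul_add, show w + (s.map wt).sum + u = w + u + (s.map wt).sum by abel] at this

theorem V_left (s1 : S1) (s2 : S2) (hp : 7 ≤ p) (m : ℕ) (w u : Γ) (r : Tor ℤ_[p] tor)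
    (hr : r ∈ Tp tor cv wt ℤ_[p] J₀ u)
    (T : PS ι (Tor ℤ_[p] tor) →ₗ[ℤ_[p]] PS ι (Tor ℤ_[p] tor))
    (hT : T ∈ V tor cv wt p J₀ f m w) : mu tor p r ∘ₗ T ∈ V tor cv wt p J₀ f m (u + w) := by
  obtain ⟨-, -, hmul, hpd, hphi, -⟩ := (s1 ℤ_[p] σ tor).2.2.2.2.2.2.2.2 I Γ cv wt J₀
  obtain ⟨hD, -, -, hΨ, -⟩ := s2 p hp σ ι tor f
  have key : ∀ (s : List σ) (w u : Γ) (r : Tor ℤ_[p] tor), r ∈ Tp tor cv wt ℤ_[p] J₀ u →
      ∀ a ∈ Tp tor cv wt ℤ_[p] J₀ (p • (w + (s.map wt).sum)),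
      mu tor p r ∘ₗ (Qw tor p f s ∘ₗ stdPsi p tor f ∘ₗ mu tor p a) ∈
        V tor cv wt p J₀ f s.length (u + w) := by
    intro s
    induction s with
    | nil =>
      intro w u r hr a ha
      have e : mu tor p r ∘ₗ (Qw tor p f [] ∘ₗ stdPsi p tor f ∘ₗ mu tor p a) =
          Qw tor p f [] ∘ₗ stdPsi p tor f ∘ₗ mu tor p (phi0 tor ℤ_[p] p r * a) := by
        refine LinearMap.ext fun b => ?_
        simp only [LinearMap.comp_apply, mu_apply, mul_smul, Qw, List.foldr_nil, LinearMap.id_apply,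
          hΨ]
      rw [e]
      refine V_gen tor cv wt p J₀ f _ _ [] le_rfl _ ?_
      have := hmul _ _ _ _ (hphi _ p _ hr) ha
      rwa [← smul_add, ← add_assoc] at this
    | cons x s ih =>
      intro w u r hr a ha
      rw [List.map_cons, List.sum_cons, ← add_assoc] at ha
      have e : mu tor p r ∘ₗ (Qw tor p f (x :: s) ∘ₗ stdPsi p tor f ∘ₗ mu tor p a) =
          DOp p (pd tor ℤ_[p] x) f ∘ₗ (mu tor p r ∘ₗ (Qw tor p f s ∘ₗ stdPsi p tor f ∘ₗ mu tor p a))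
          - mu tor p (pd tor ℤ_[p] x r) ∘ₗ (Qw tor p f s ∘ₗ stdPsi p tor f ∘ₗ mu tor p a) := by
        refine LinearMap.ext fun b => ?_
        simp only [LinearMap.comp_apply, mu_apply, Qw_cons, LinearMap.sub_apply, hD]
        abel
      rw [e]
      refine Submodule.sub_mem _ (V_D tor cv wt p J₀ f _ _ x _ ?_) ?_
      · have := ih (w + wt x) u r hr a ha
        rwa [← add_assoc] at this
      · have := ih (w + wt x) (u - wt x) _ (hpd _ x _ hr) a ha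
        rw [show u - wt x + (w + wt x) = u + w by abel] at this
        exact V_mono tor cv wt p J₀ f (by simp) _ this
  refine V_ind tor cv wt p J₀ f m _ (fun T => mu tor p r ∘ₗ T) _
    (fun T T' => LinearMap.comp_add _ _ _) (fun c T => LinearMap.comp_smul _ _ _)
    (fun s hs a ha => V_mono tor cv wt p J₀ f hs _ (key s w u r hr a ha)) T hT

theorem V_near (m k : ℕ) (hk : nu (m + 1) ≤ k) (x : σ)
    (T : PS ι (Tor ℤ_[p] tor) →ₗ[ℤ_[p]] PS ι (Tor ℤ_[p] tor))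
    (hT : T ∈ V tor cv wt p J₀ f m (wt x)) :
    (p : ℤ_[p]) ^ k • (DOp p (pd tor ℤ_[p] x) f ∘ₗ T) ∈ NearStd tor cv wt p J₀ f := by
  refine V_ind tor cv wt p J₀ f m _ (fun T => (p : ℤ_[p]) ^ k • (DOp p (pd tor ℤ_[p] x) f ∘ₗ T)) _
    (fun T T' => by rw [LinearMap.comp_add, smul_add])
    (fun c T => by rw [LinearMap.comp_smul, smul_comm]) (fun s hs a ha => ?_) T hT
  obtain ⟨j, rfl⟩ : ∃ j, k = j + nu (x :: s).length := by
    refine ⟨k - nu (x :: s).length, ?_⟩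
    have : nu (x :: s).length ≤ nu (m + 1) := by
      unfold nu; simp only [List.length_cons]; omega
    omega
  rw [pow_add, mul_smul]
  refine Submodule.smul_mem _ _ (Submodule.subset_span ⟨x :: s, by simp, a, ?_, rfl⟩)
  rwa [List.map_cons, List.sum_cons]

/-- The operator `∑ D_l ∘ r_l`. -/
def Eo (r : σ → Tor ℤ_[p] tor) : PS ι (Tor ℤ_[p] tor) →ₗ[ℤ_[p]] PS ι (Tor ℤ_[p] tor) :=
  ∑ l, DOp p (pd tor ℤ_[p] l) f ∘ₗ mu tor p (r l)

theorem Eo_comp (r : σ → Tor ℤ_[p] tor)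
    (T : PS ι (Tor ℤ_[p] tor) →ₗ[ℤ_[p]] PS ι (Tor ℤ_[p] tor)) :
    Eo tor p f r ∘ₗ T = ∑ l, DOp p (pd tor ℤ_[p] l) f ∘ₗ (mu tor p (r l) ∘ₗ T) := by
  refine LinearMap.ext fun b => ?_
  simp only [Eo, LinearMap.comp_apply, LinearMap.sum_apply]

theorem pow_succ_comp (E T : PS ι (Tor ℤ_[p] tor) →ₗ[ℤ_[p]] PS ι (Tor ℤ_[p] tor)) (n : ℕ) :
    (E ^ (n + 1)) ∘ₗ T = E ∘ₗ ((E ^ n) ∘ₗ T) := by
  rw [pow_succ']; rfl

theorem Epow_V (s1 : S1) (s2 : S2) (hp : 7 ≤ p) (v : Γ) (r : σ → Tor ℤ_[p] tor)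
    (hr : ∀ l, r l ∈ Tp tor cv wt ℤ_[p] J₀ (wt l - v)) (m n : ℕ) (w : Γ)
    (T : PS ι (Tor ℤ_[p] tor) →ₗ[ℤ_[p]] PS ι (Tor ℤ_[p] tor))
    (hT : T ∈ V tor cv wt p J₀ f m (w + n • v)) :
    (Eo tor p f r ^ n) ∘ₗ T ∈ V tor cv wt p J₀ f (m + n) w := by
  induction n generalizing w with
  | zero =>
    rw [zero_smul, add_zero] at hT
    exact hT
  | succ n ih =>
    rw [pow_succ_comp, Eo_comp]
    refine Submodule.sum_mem _ fun l _ => V_D tor cv wt p J₀ f _ _ l _ ?_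
    have h1 := ih (w + v) (by rwa [succ_nsmul', ← add_assoc] at hT)
    have := V_left tor cv wt p J₀ f s1 s2 hp _ _ _ _ (hr l) _ h1
    rwa [show wt l - v + (w + v) = w + wt l by abel] at this

theorem Epow_near (s1 : S1) (s2 : S2) (hp : 7 ≤ p) (v : Γ) (r : σ → Tor ℤ_[p] tor)
    (hr : ∀ l, r l ∈ Tp tor cv wt ℤ_[p] J₀ (wt l - v)) (m n k : ℕ) (hk : nu (m + n + 1) ≤ k)
    (T : PS ι (Tor ℤ_[p] tor) →ₗ[ℤ_[p]] PS ι (Tor ℤ_[p] tor))
    (hT : T ∈ V tor cv wt p J₀ f m ((n + 1) • v)) :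
    (p : ℤ_[p]) ^ k • ((Eo tor p f r ^ (n + 1)) ∘ₗ T) ∈ NearStd tor cv wt p J₀ f := by
  rw [pow_succ_comp, Eo_comp, Finset.smul_sum]
  refine Submodule.sum_mem _ fun l _ => V_near tor cv wt p J₀ f (m + n) k hk l _ ?_
  have h1 := Epow_V tor cv wt p J₀ f s1 s2 hp v r hr m n v T (by rwa [succ_nsmul'] at hT)
  have := V_left tor cv wt p J₀ f s1 s2 hp _ _ _ _ (hr l) _ h1
  rwa [sub_add_cancel] at this

/-- The Taylor terms of positive order are near. -/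
theorem term_near (s1 : S1) (s2 : S2) (hp : 7 ≤ p) (v : Γ) (r : σ → Tor ℤ_[p] tor)
    (hr : ∀ l, r l ∈ Tp tor cv wt ℤ_[p] J₀ (wt l - v)) (θ : Tor ℤ_[p] tor)
    (hθ : θ ∈ Tp tor cv wt ℤ_[p] J₀ (p • v)) (n : ℕ)
    (N : PS ι (Tor ℤ_[p] tor) →ₗ[ℤ_[p]] PS ι (Tor ℤ_[p] tor))
    (hN : N ∈ NearStd tor cv wt p J₀ f) :
    (p : ℤ_[p]) ^ nu (n + 1) • ((Eo tor p f r ^ (n + 1)) ∘ₗ
      ((stdPsi p tor f + N) ∘ₗ mu tor p (θ ^ (n + 1)))) ∈ NearStd tor cv wt p J₀ f := by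
  have hθn : θ ^ (n + 1) ∈ Tp tor cv wt ℤ_[p] J₀ (p • ((n + 1) • v)) := by
    rw [smul_comm]; exact Tp_pow tor cv wt s1 J₀ _ θ hθ _
  rw [LinearMap.add_comp, LinearMap.comp_add, smul_add]
  refine Submodule.add_mem _ ?_ ?_
  · refine Epow_near tor cv wt p J₀ f s1 s2 hp v r hr 0 n _ (by simp) _ ?_
    exact V_gen tor cv wt p J₀ f 0 _ [] le_rfl _ (by simpa using hθn)
  · induction hN using Submodule.span_induction with
    | mem T hT =>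
      obtain ⟨s, -, a, ha, rfl⟩ := hT
      rw [LinearMap.smul_comp, LinearMap.comp_smul, smul_smul, ← pow_add]
      refine Epow_near tor cv wt p J₀ f s1 s2 hp v r hr s.length n _ (by unfold nu; omega) _ ?_
      have h0 := V_gen tor cv wt p J₀ f s.length 0 s le_rfl a (by rwa [zero_add])
      have := V_right tor cv wt p J₀ f s1 _ _ _ _ hθn _ h0
      rwa [zero_add] at this
    | zero => simp
    | add T T' _ _ h1 h2 =>
      rw [LinearMap.add_comp, LinearMap.comp_add, smul_add]; exact Submodule.add_mem _ h1 h2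
    | smul c T _ h1 =>
      rw [LinearMap.smul_comp, LinearMap.comp_smul, smul_comm]; exact Submodule.smul_mem _ c h1

end

end Pool.Agent.MP_ea150c_mp.H94
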